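import Mathlib

/-!
# The spectrum of the inhomogeneous uniform exponent of a Liouville number is `[0, ∞]`

For a Liouville number `ζ` the set of the values of `α ↦ ŵ₁(ζ, α)`, `α ∉ ℤ + ℤ ζ`, is the whole of
`[0, ∞]`. So every `c ∈ [0, 1]` is attained, and the spectrum is never `[0, 1]`.

We take `α = - ∑ B i * (q i * ζ - p i)` with very good rational approximations `p i / q i` and
`B i` of the size for which `B i * |q i * ζ - p i|` is about `(B i * q i) ^ (-c)`.
-/

set_option autoImplicit false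

open Filter Topology

namespace Pool.Agent.Results.MP_12d26a_nt.WholeSpectrum

/-- `w` has the property in the definition of the exponent: for every sufficiently large real `X`
there are integers `x₀, x₁` with `1 ≤ x₁ ≤ X` and `|α + x₀ + ζ x₁| ≤ X ^ (-w)`. -/
def Admissible (ζ α w : ℝ) : Prop :=
  ∃ X₀ : ℝ, ∀ X : ℝ, X₀ ≤ X → ∃ x₀ x₁ : ℤ, 1 ≤ x₁ ∧ (x₁ : ℝ) ≤ X ∧
    |α + x₀ + ζ * x₁| ≤ X ^ (-w)

/-- The exponent: the supremum of all real `w` with the property `Admissible`. -/
noncomputable def exponent (ζ α : ℝ) : EReal :=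
  sSup {e : EReal | ∃ w : ℝ, e = (w : EReal) ∧ Admissible ζ α w}

/-- The spectrum: the set of the values of the exponent at the `α` outside `ℤ + ℤ ζ`. -/
def Spectrum (ζ : ℝ) : Set EReal :=
  {e | ∃ α : ℝ, (∀ m n : ℤ, α ≠ m + n * ζ) ∧ exponent ζ α = e}

/-- The conditions on one term `(q, p, B)` of the series. -/
def Cond (ζ a b M : ℝ) (s : ℕ × ℤ × ℕ) : Prop :=
  M ≤ s.1 ∧ 1 ≤ s.1 ∧ 1 ≤ s.2.2 ∧ 0 < s.2.2 * |s.1 * ζ - s.2.1| ∧
    s.2.2 * |s.1 * ζ - s.2.1| ≤ 1 / (4 * s.1) ∧
    (∀ X : ℝ, 1 ≤ X → X ≤ 2 * (s.2.2 * s.1) →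
      2 * (s.2.2 * |s.1 * ζ - s.2.1|) ≤ X ^ (-a)) ∧
    ((s.2.2 * s.1 : ℝ) / 2) ^ (-b) < (s.2.2 * |s.1 * ζ - s.2.1|) / 4

lemma exists_num {ζ : ℝ} (hζ : Liouville ζ) (n : ℕ) (M : ℝ) :
    ∃ q : ℕ, M ≤ q ∧ 1 ≤ q ∧ ∃ p : ℤ, 0 < |(q : ℝ) * ζ - p| ∧
      |(q : ℝ) * ζ - p| < 1 / (q : ℝ) ^ n := by
  have h := ((eventually_ge_atTop (max 1 ⌈M⌉₊)).and_frequently
    (hζ.frequently_exists_num (n + 1))).exists
  obtain ⟨q, hq, p, hne, hlt⟩ := h
  have hq1 : 1 ≤ q := le_trans (le_max_left _ _) hq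
  have hqM : M ≤ q := le_trans (Nat.le_ceil M) (by exact_mod_cast le_trans (le_max_right _ _) hq)
  have hq0 : (0 : ℝ) < q := by exact_mod_cast hq1
  have e : |(q : ℝ) * ζ - p| = q * |ζ - p / q| := by
    rw [show (q : ℝ) * ζ - p = q * (ζ - p / q) by field_simp, abs_mul, abs_of_pos hq0]
  refine ⟨q, hqM, hq1, p, ?_, ?_⟩
  · rw [e]
    have : 0 < |ζ - p / q| := abs_pos.2 (sub_ne_zero.2 hne)
    positivity
  · rw [e]
    calc (q : ℝ) * |ζ - p / q| < q * (1 / (q : ℝ) ^ (n + 1)) := by gcongr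
      _ = 1 / (q : ℝ) ^ n := by
        rw [pow_succ]
        field_simp

lemma step {ζ : ℝ} (hζ : Liouville ζ) {a b : ℝ} (ha : 0 ≤ a) (hab : a < b) (M : ℝ) :
    ∃ s, Cond ζ a b M s := by
  set c := (a + b) / 2 with hc
  set ε := (b - a) / 2 with hε
  have hε0 : 0 < ε := by rw [hε]; linarith
  have hc0 : 0 < c := by rw [hc]; linarith
  have hac : a = c - ε := by rw [hc, hε]; ring
  have hbc : b = c + ε := by rw [hc, hε]; ring
  -- the exponent of the approximation
  obtain ⟨K, hK⟩ := exists_nat_ge (max (c + 2 * (1 + c) / c) (c + 1))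
  have hK1 : c + 2 * (1 + c) / c ≤ K := le_trans (le_max_left _ _) hK
  have hK2 : c + 1 ≤ K := le_trans (le_max_right _ _) hK
  -- the threshold
  have hlim : Tendsto (fun x : ℝ => x ^ ε) atTop atTop := tendsto_rpow_atTop hε0
  obtain ⟨Q, hQ⟩ := (hlim.eventually_ge_atTop (8 * 4 ^ b + 2 * 2 ^ a + 1)).exists_forall_of_atTop
  obtain ⟨q, hqM, hq1, p, hδ0, hδ⟩ := exists_num hζ K (max M (max Q 4))
  have hqM' : M ≤ q := le_trans (le_max_left _ _) hqM
  have hqQ : Q ≤ q := le_trans (le_trans (le_max_left _ _) (le_max_right _ _)) hqM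
  have hq4 : (4 : ℝ) ≤ q := le_trans (le_trans (le_max_right _ _) (le_max_right _ _)) hqM
  set δ := |(q : ℝ) * ζ - p| with hδdef
  have hq0 : (0 : ℝ) < q := by linarith
  have hq1' : (1 : ℝ) ≤ q := by linarith
  -- the size of the coefficient
  set y : ℝ := ((q : ℝ) ^ (-c) / δ) ^ (1 / (1 + c)) with hy
  have h1c : (0 : ℝ) < 1 + c := by linarith
  have hbase : (0 : ℝ) < (q : ℝ) ^ (-c) / δ := by positivity
  have hy0 : 0 < y := by rw [hy]; positivity
  have hyc : y ^ (1 + c) = (q : ℝ) ^ (-c) / δ := by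
    rw [hy, ← Real.rpow_mul hbase.le, one_div_mul_cancel h1c.ne', Real.rpow_one]
  have hyδ : y * δ = (y * q) ^ (-c) := by
    have h1 : y ^ (1 + c) = y * y ^ c := by
      rw [Real.rpow_add hy0, Real.rpow_one]
    rw [h1] at hyc
    have h2 : y * δ * y ^ c = (q : ℝ) ^ (-c) := by
      rw [mul_right_comm, hyc]
      field_simp
    rw [Real.mul_rpow hy0.le hq0.le, Real.rpow_neg hy0.le c, ← h2]
    have : y ^ c ≠ 0 := (Real.rpow_pos_of_pos hy0 c).ne'
    field_simp
  -- lower bound of y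
  have hylow : (q : ℝ) ^ ((K - c) / (1 + c)) ≤ y := by
    rw [hy, div_eq_mul_one_div, Real.rpow_mul hq0.le]
    apply Real.rpow_le_rpow (by positivity) _ (by positivity)
    rw [show (K : ℝ) - c = K + (-c) by ring, Real.rpow_add hq0, Real.rpow_natCast, mul_comm,
      le_div_iff₀ hδ0, mul_assoc]
    have : (q : ℝ) ^ K * δ ≤ 1 := by
      have := hδ.le
      rw [le_div_iff₀ (by positivity)] at this
      linarith
    calc (q : ℝ) ^ (-c) * ((q : ℝ) ^ K * δ) ≤ (q : ℝ) ^ (-c) * 1 := by gcongr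
      _ = _ := by ring
  have hy1 : 1 ≤ y := by
    refine le_trans ?_ hylow
    apply Real.one_le_rpow hq1'
    apply div_nonneg _ h1c.le
    linarith
  have hyc2 : (q : ℝ) ^ (2 : ℝ) ≤ y ^ c := by
    calc (q : ℝ) ^ (2 : ℝ) ≤ (q : ℝ) ^ ((K - c) / (1 + c) * c) := by
          apply Real.rpow_le_rpow_of_exponent_le hq1'
          have : 2 * (1 + c) / c ≤ K - c := by linarith
          rw [div_le_iff₀ hc0] at this
          rw [div_mul_eq_mul_div, le_div_iff₀ h1c]
          linarith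
      _ = ((q : ℝ) ^ ((K - c) / (1 + c))) ^ c := by rw [Real.rpow_mul hq0.le]
      _ ≤ y ^ c := Real.rpow_le_rpow (by positivity) hylow hc0.le
  -- the coefficient
  set B := ⌊y⌋₊ with hB
  have hBy : (B : ℝ) ≤ y := Nat.floor_le hy0.le
  have hB1 : 1 ≤ B := Nat.le_floor (by exact_mod_cast hy1)
  have hB1' : (1 : ℝ) ≤ B := by exact_mod_cast hB1
  have hyB : y ≤ 2 * B := by
    have := Nat.lt_floor_add_one y
    rw [← hB] at this
    linarith
  have hyq : (q : ℝ) ≤ y * q := by nlinarith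
  have hyq0 : 0 < y * q := by positivity
  have hbig : 8 * 4 ^ b + 2 * 2 ^ a + 1 ≤ (y * q) ^ ε :=
    le_trans (hQ q hqQ) (Real.rpow_le_rpow hq0.le hyq hε0.le)
  have h4b : (0 : ℝ) < 4 ^ b := by positivity
  have h2a : (0 : ℝ) < 2 ^ a := by positivity
  refine ⟨(q, p, B), hqM', hq1, hB1, ?_, ?_, ?_, ?_⟩
  · change 0 < (B : ℝ) * |(q : ℝ) * ζ - p|
    positivity
  · change (B : ℝ) * δ ≤ 1 / (4 * q)
    calc (B : ℝ) * δ ≤ y * δ := by gcongr
      _ = (y * q) ^ (-c) := hyδ
      _ = 1 / ((y ^ c) * (q : ℝ) ^ c) := by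
        rw [Real.rpow_neg hyq0.le, Real.mul_rpow hy0.le hq0.le, one_div]
      _ ≤ 1 / ((q : ℝ) ^ (2 : ℝ) * 1) := by
        apply one_div_le_one_div_of_le (by positivity)
        apply mul_le_mul hyc2 (Real.one_le_rpow hq1' hc0.le) (by positivity) (by positivity)
      _ ≤ 1 / (4 * q) := by
        apply one_div_le_one_div_of_le (by positivity)
        rw [mul_one, show (2 : ℝ) = ((2 : ℕ) : ℝ) by norm_num, Real.rpow_natCast]
        nlinarith
  · intro X hX1 hX2
    change X ≤ 2 * ((B : ℝ) * q) at hX2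
    change 2 * ((B : ℝ) * δ) ≤ X ^ (-a)
    have hX3 : X ≤ 2 * (y * q) := by
      calc X ≤ 2 * ((B : ℝ) * q) := hX2
        _ ≤ _ := by gcongr
    calc 2 * ((B : ℝ) * δ) ≤ 2 * (y * δ) := by gcongr
      _ = 2 * (y * q) ^ (-c) := by rw [hyδ]
      _ ≤ (2 * (y * q)) ^ (-a) := by
        rw [Real.mul_rpow (by norm_num) hyq0.le, hac,
          show -(c - ε) = ε + -c by ring, Real.rpow_add hyq0, ← mul_assoc]
        apply mul_le_mul_of_nonneg_right _ (by positivity)
        rw [show ε + -c = -a by rw [hac]; ring, Real.rpow_neg (by norm_num : (0 : ℝ) ≤ 2),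
          inv_mul_eq_div, le_div_iff₀ h2a]
        linarith
      _ ≤ X ^ (-a) := Real.rpow_le_rpow_of_nonpos (by linarith) hX3 (by linarith)
  · change ((B : ℝ) * q / 2) ^ (-b) < ((B : ℝ) * δ) / 4
    have h1 : y * q / 4 ≤ (B : ℝ) * q / 2 := by nlinarith
    calc ((B : ℝ) * q / 2) ^ (-b) ≤ (y * q / 4) ^ (-b) :=
          Real.rpow_le_rpow_of_nonpos (by positivity) h1 (by linarith)
      _ = 4 ^ b * ((y * q) ^ (-c) / (y * q) ^ ε) := by
        rw [Real.div_rpow hyq0.le (by norm_num), Real.rpow_neg (by norm_num : (0 : ℝ) ≤ 4),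
          show -b = -c - ε by rw [hbc]; ring, Real.rpow_sub hyq0]
        field_simp
      _ < (y * q) ^ (-c) / 8 := by
        have h3 : (0 : ℝ) < (y * q) ^ (-c) := by positivity
        have h4 : (0 : ℝ) < (y * q) ^ ε := by positivity
        have h5 : 8 * 4 ^ b < (y * q) ^ ε := by linarith
        have h6 : (y * q) ^ (-c) / 8 * (8 * 4 ^ b) < (y * q) ^ (-c) / 8 * (y * q) ^ ε :=
          mul_lt_mul_of_pos_left h5 (by positivity)
        rw [← mul_div_assoc, div_lt_iff₀ h4]
        linarith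
      _ = y * δ / 8 := by rw [hyδ]
      _ ≤ (2 * B) * δ / 8 := by gcongr
      _ = ((B : ℝ) * δ) / 4 := by ring

lemma exists_seq {T : Type*} (P : ℕ → T → T → Prop) (h : ∀ i s, ∃ s', P i s s') (s₀ : T) :
    ∃ f : ℕ → T, ∀ i, P i (f i) (f (i + 1)) := by
  choose g hg using h
  let f : ℕ → T := fun n => Nat.rec (motive := fun _ => T) s₀ (fun i s => g i s) n
  exact ⟨f, fun i => hg i (f i)⟩

/-- The sequence of the terms. -/
lemma exists_terms {ζ : ℝ} (hζ : Liouville ζ) {a b : ℕ → ℝ} (ha : ∀ i, 0 ≤ a i)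
    (hab : ∀ i, a i < b i) :
    ∃ f : ℕ → ℕ × ℤ × ℕ, (∀ i, Cond ζ (a i) (b i) i (f i)) ∧
      (∀ i, 16 * ((f i).2.2 * (f i).1 : ℝ) ≤ (f (i + 1)).1) ∧
      (∀ i, 2 / ((f i).2.2 * |(f i).1 * ζ - (f i).2.1|) ≤ (f (i + 1)).1) := by
  obtain ⟨f, hf⟩ := exists_seq (T := ℕ × ℤ × ℕ)
    (fun i s s' => Cond ζ (a i) (b i) i s' ∧ 16 * (s.2.2 * s.1 : ℝ) ≤ s'.1 ∧
      2 / (s.2.2 * |s.1 * ζ - s.2.1|) ≤ s'.1) (fun i s => by
      obtain ⟨s', hs'⟩ := step hζ (ha i) (hab i)
        (max i (max (16 * (s.2.2 * s.1 : ℝ)) (2 / (s.2.2 * |s.1 * ζ - s.2.1|))))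
      refine ⟨s', ⟨?_, hs'.2⟩, ?_, ?_⟩
      · exact le_trans (le_max_left _ _) hs'.1
      · exact le_trans (le_trans (le_max_left _ _) (le_max_right _ _)) hs'.1
      · exact le_trans (le_trans (le_max_right _ _) (le_max_right _ _)) hs'.1) (0, 0, 0)
  exact ⟨fun i => f (i + 1), fun i => (hf i).1, fun i => (hf (i + 1)).2.1,
    fun i => (hf (i + 1)).2.2⟩

/-- The main construction: there is `α` whose approximations behave as prescribed. -/
lemma exists_alpha {ζ : ℝ} (hζ : Liouville ζ) {a b : ℕ → ℝ} (ha : ∀ i, 0 ≤ a i)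
    (hab : ∀ i, a i < b i) :
    ∃ α : ℝ, (∀ m n : ℤ, α ≠ m + n * ζ) ∧
      (∀ w : ℝ, (∀ᶠ i in atTop, w ≤ a i) → Admissible ζ α w) ∧
      (∀ w : ℝ, (∀ᶠ i in atTop, b i ≤ w) → ¬ Admissible ζ α w) := by
  obtain ⟨f, hC, h16, h2⟩ := exists_terms hζ ha hab
  set q : ℕ → ℝ := fun i => ((f i).1 : ℝ) with hq
  set n : ℕ → ℝ := fun i => ((f i).2.2 : ℝ) * (f i).1 with hn
  set e : ℕ → ℝ := fun i => (f i).2.2 * |(f i).1 * ζ - (f i).2.1| with he
  set t : ℕ → ℝ := fun i => (f i).2.2 * ((f i).1 * ζ - (f i).2.1) with ht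
  have hte : ∀ i, |t i| = e i := fun i => by
    simp only [ht, he, abs_mul, Nat.abs_cast]
  have hq1 : ∀ i, 1 ≤ q i := fun i => by
    have := (hC i).2.1
    simp only [hq]
    exact_mod_cast this
  have hB1 : ∀ i, (1 : ℝ) ≤ (f i).2.2 := fun i => by
    have := (hC i).2.2.1
    exact_mod_cast this
  have hqn : ∀ i, q i ≤ n i := fun i => by
    have h1 := hB1 i
    have h2 := hq1 i
    simp only [hn, hq] at h2 ⊢
    nlinarith
  have he0 : ∀ i, 0 < e i := fun i => (hC i).2.2.2.1
  have heq : ∀ i, e i ≤ 1 / (4 * q i) := fun i => (hC i).2.2.2.2.1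
  have hdec : ∀ i, e (i + 1) ≤ e i / 8 := fun i => by
    refine le_trans (heq (i + 1)) ?_
    have h3 : 2 / e i ≤ q (i + 1) := h2 i
    have h4 := he0 i
    rw [div_le_iff₀ h4] at h3
    have h5 := hq1 (i + 1)
    rw [div_le_div_iff₀ (by linarith) (by norm_num)]
    nlinarith
  have hgeo : ∀ i k, e (i + k) ≤ e i * (1 / 8) ^ k := by
    intro i k
    induction k with
    | zero => simp
    | succ k ih =>
      have := hdec (i + k)
      rw [← add_assoc, pow_succ]
      linarith
  have hsg : Summable (fun k : ℕ => ((1 : ℝ) / 8) ^ k) :=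
    summable_geometric_of_lt_one (by norm_num) (by norm_num)
  have hsum : ∀ i, Summable (fun k => t (k + i)) := by
    intro i
    refine Summable.of_norm_bounded (hsg.mul_left (e i)) (fun k => ?_)
    rw [Real.norm_eq_abs, hte, add_comm]
    exact hgeo i k
  set T : ℕ → ℝ := fun i => ∑' k, t (k + i) with hT
  have hTbd : ∀ i, |T i| ≤ e i * (8 / 7) := by
    intro i
    have h3 : ‖∑' k, t (k + i)‖ ≤ ∑' k : ℕ, e i * (1 / 8) ^ k := by
      refine tsum_of_norm_bounded ((hsg.mul_left (e i)).hasSum) (fun k => ?_)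
      rw [Real.norm_eq_abs, hte, add_comm]
      exact hgeo i k
    rw [tsum_mul_left, tsum_geometric_of_lt_one (by norm_num) (by norm_num)] at h3
    rw [Real.norm_eq_abs] at h3
    refine le_trans h3 (le_of_eq ?_)
    norm_num
  have hTrec : ∀ i, T i = t i + T (i + 1) := by
    intro i
    simp only [hT]
    rw [(hsum i).tsum_eq_zero_add, zero_add]
    congr 1
    refine tsum_congr (fun k => ?_)
    congr 1
    ring
  -- the partial sums
  set N : ℕ → ℤ := fun i => ∑ l ∈ Finset.range i, ((f l).2.2 : ℤ) * (f l).1 with hN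
  set P : ℕ → ℤ := fun i => ∑ l ∈ Finset.range i, ((f l).2.2 : ℤ) * (f l).2.1 with hP
  have hNs : ∀ i, (N (i + 1) : ℝ) = N i + n i := by
    intro i
    simp only [hN, hn, Finset.sum_range_succ]
    push_cast
    ring
  have hPs : ∀ i, (P (i + 1) : ℝ) = P i + (f i).2.2 * (f i).2.1 := by
    intro i
    simp only [hP, Finset.sum_range_succ]
    push_cast
    ring
  set α : ℝ := - T 0 with hα
  have hαN : ∀ i, α + N i * ζ - P i = - T i := by
    intro i
    induction i with
    | zero => simp [hα, hN, hP]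
    | succ i ih =>
      rw [hNs, hPs]
      have h3 := hTrec i
      simp only [ht, hn] at h3 ⊢
      linarith
  have hNq : ∀ i, 0 ≤ (N i : ℝ) ∧ (N i : ℝ) ≤ q i / 8 := by
    intro i
    induction i with
    | zero =>
      have := hq1 0
      simp only [hN, Finset.range_zero, Finset.sum_empty, Int.cast_zero]
      constructor
      · exact le_refl _
      · linarith
    | succ i ih =>
      have h3 := h16 i
      have h4 := hqn i
      have h5 := hq1 i
      rw [hNs]
      constructor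
      · linarith
      · have h6 : 16 * n i ≤ q (i + 1) := h3
        linarith
  have hN2 : ∀ i, (N (i + 1) : ℝ) ≤ 2 * n i := fun i => by
    have h3 := hNq i
    have h4 := hqn i
    have h5 := hq1 i
    rw [hNs]
    linarith
  -- all integers of absolute value at most `n i / 2` give a large value
  have hlow : ∀ (i : ℕ) (x₀ x₁ : ℤ), |(x₁ : ℝ)| ≤ n i / 2 → e i / 4 ≤ |α + x₀ + ζ * x₁| := by
    intro i x₀ x₁ hx
    set r : ℤ := x₁ - N i - (f i).2.2 * (f i).1 with hr
    set s : ℤ := x₀ + P i + (f i).2.2 * (f i).2.1 with hs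
    have hxx := abs_le.1 hx
    have hrr : (r : ℝ) = x₁ - N i - n i := by
      rw [hr]
      push_cast
      ring
    have h3 : α + x₀ + ζ * x₁ = (r * ζ + s) - T (i + 1) := by
      have h4 := hαN i
      have h5 := hTrec i
      rw [hr, hs]
      push_cast
      simp only [ht] at h5
      linarith
    have hT1 : |T (i + 1)| ≤ e i / 4 := by
      have h4 := hTbd (i + 1)
      have h5 := hdec i
      have h6 := he0 i
      linarith
    have hNi := hNq i
    have hqi := hqn i
    have hqi1 := hq1 i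
    have hr1 : n i / 2 ≤ |(r : ℝ)| := by
      rw [hrr, abs_of_nonpos (by linarith)]
      linarith
    have hr2 : |(r : ℝ)| ≤ 2 * n i := by
      rw [hrr, abs_of_nonpos (by linarith)]
      linarith
    have hmain : e i / 2 ≤ |(r : ℝ) * ζ + s| := by
      have hq0 : 0 < q i := by linarith
      have hδ : |ζ - (f i).2.1 / q i| = |q i * ζ - (f i).2.1| / q i := by
        rw [show ζ - ((f i).2.1 : ℝ) / q i = (q i * ζ - (f i).2.1) / q i by field_simp, abs_div,
          abs_of_pos hq0]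
      have hne : n i * (|q i * ζ - (f i).2.1| / q i) = e i := by
        simp only [hn, he, hq]
        simp only [hq] at hq0
        field_simp
      by_cases h0 : r * (f i).2.1 + s * (f i).1 = 0
      · have h7 : (r : ℝ) * ζ + s = r * (ζ - (f i).2.1 / q i) := by
          have h8 : (r : ℝ) * (f i).2.1 + s * q i = 0 := by
            simp only [hq]
            exact_mod_cast h0
          have h9 : (s : ℝ) = - (r * (f i).2.1) / q i := by
            rw [eq_div_iff hq0.ne']
            linarith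
          rw [h9]
          ring
        rw [h7, abs_mul, hδ]
        have h10 : 0 ≤ |q i * ζ - (f i).2.1| / q i := by positivity
        nlinarith
      · have h8 : (1 : ℝ) ≤ |(r : ℝ) * (f i).2.1 + s * q i| := by
          have := Int.one_le_abs h0
          simp only [hq]
          exact_mod_cast this
        have h9 : (r : ℝ) * ζ + s = (r * (f i).2.1 + s * q i) / q i +
            r * (ζ - (f i).2.1 / q i) := by
          field_simp
          ring
        have h10 : 1 / q i ≤ |((r : ℝ) * (f i).2.1 + s * q i) / q i| := by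
          rw [abs_div, abs_of_pos hq0]
          gcongr
        have h11 : |(r : ℝ) * (ζ - (f i).2.1 / q i)| ≤ 2 * e i := by
          rw [abs_mul, hδ]
          have h12 : 0 ≤ |q i * ζ - (f i).2.1| / q i := by positivity
          nlinarith
        have h12 := abs_sub_abs_le_abs_sub (((r : ℝ) * (f i).2.1 + s * q i) / q i)
          (-(r * (ζ - (f i).2.1 / q i)))
        rw [abs_neg, sub_neg_eq_add, ← h9] at h12
        have h13 := heq i
        have h14 : 1 / (4 * q i) = 1 / q i / 4 := by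
          field_simp
        rw [h14] at h13
        have h15 := he0 i
        linarith
    have h5 := abs_sub_abs_le_abs_sub ((r : ℝ) * ζ + s) (T (i + 1))
    rw [h3]
    linarith
  have hn_top : Tendsto n atTop atTop := by
    refine tendsto_atTop_mono (fun i => ?_) tendsto_natCast_atTop_atTop
    exact le_trans (hC i).1 (hqn i)
  refine ⟨α, ?_, ?_, ?_⟩
  · intro m k hmk
    have h3 : ∀ᶠ i in atTop, 2 * |((-k : ℤ) : ℝ)| ≤ n i := hn_top.eventually_ge_atTop _
    obtain ⟨i, hi⟩ := h3.exists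
    have h4 := hlow i (-m) (-k) (by linarith)
    have h5 := he0 i
    rw [hmk] at h4
    push_cast at h4
    rw [show (m : ℝ) + k * ζ + -m + ζ * -k = 0 by ring, abs_zero] at h4
    linarith
  · intro w hw
    obtain ⟨i₀, hi₀⟩ := eventually_atTop.1 hw
    refine ⟨N (i₀ + 1), fun X hX => ?_⟩
    have hmono : Monotone (fun i => (N i : ℝ)) := by
      refine monotone_nat_of_le_succ (fun i => ?_)
      have h3 := hqn i
      have h4 := hq1 i
      simp only [hNs]
      linarith
    have hex : ∃ i, X < (N (i + 1) : ℝ) := by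
      obtain ⟨i, hi⟩ := (hn_top.eventually_gt_atTop X).exists
      refine ⟨i, ?_⟩
      have h3 := hNq i
      rw [hNs]
      linarith
    classical
    set i := Nat.find hex with hidef
    have hi1 : X < (N (i + 1) : ℝ) := Nat.find_spec hex
    have hi2 : i₀ < i := by
      by_contra hcon
      have h3 : (N (i + 1) : ℝ) ≤ N (i₀ + 1) := hmono (by omega)
      linarith
    obtain ⟨j, hj⟩ : ∃ j, i = j + 1 := ⟨i - 1, by omega⟩
    have hi3 : (N i : ℝ) ≤ X := by
      have h3 := Nat.find_min hex (m := j) (by omega)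
      rw [not_lt, ← hj] at h3
      exact h3
    have hN1 : (1 : ℝ) ≤ N i := by
      have h3 := hNq j
      have h4 := hqn j
      have h5 := hq1 j
      rw [hj, hNs]
      linarith
    have hX1 : 1 ≤ X := le_trans hN1 hi3
    refine ⟨- P i, N i, by exact_mod_cast hN1, hi3, ?_⟩
    have h3 : α + ((-P i : ℤ) : ℝ) + ζ * N i = - T i := by
      rw [← hαN i]
      push_cast
      ring
    rw [h3, abs_neg]
    have h4 : |T i| ≤ 2 * e i := by
      have h5 := hTbd i
      have h6 := he0 i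
      linarith
    have h5 : 2 * e i ≤ X ^ (- a i) :=
      (hC i).2.2.2.2.2.1 X hX1 (le_trans hi1.le (hN2 i))
    have h6 : X ^ (- a i) ≤ X ^ (- w) := by
      apply Real.rpow_le_rpow_of_exponent_le hX1
      have := hi₀ i (by omega)
      linarith
    linarith
  · intro w hw hadm
    obtain ⟨X₀, hX₀⟩ := hadm
    obtain ⟨i, hiw, hin⟩ := (hw.and (hn_top.eventually_ge_atTop (2 * max X₀ 1))).exists
    have hX1 : 1 ≤ n i / 2 := by
      have := le_max_right X₀ 1
      linarith
    obtain ⟨x₀, x₁, h1, h2', h3⟩ := hX₀ (n i / 2) (by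
      have := le_max_left X₀ 1
      linarith)
    have h4 := hlow i x₀ x₁ (by
      rw [abs_of_nonneg]
      · exact h2'
      · have : (1 : ℝ) ≤ x₁ := by exact_mod_cast h1
        linarith)
    have h5 : (n i / 2) ^ (- b i) < e i / 4 := (hC i).2.2.2.2.2.2
    have h6 : (n i / 2) ^ (- w) ≤ (n i / 2) ^ (- b i) := by
      apply Real.rpow_le_rpow_of_exponent_le hX1
      linarith
    linarith

lemma exponent_nonneg (ζ α : ℝ) : 0 ≤ exponent ζ α := by
  apply le_sSup
  refine ⟨0, by simp, 1, fun X hX => ⟨-⌊α + ζ⌋, 1, le_refl _, by exact_mod_cast hX, ?_⟩⟩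
  rw [neg_zero, Real.rpow_zero]
  push_cast
  have h1 := Int.floor_le (α + ζ)
  have h2 := Int.lt_floor_add_one (α + ζ)
  rw [abs_le]
  constructor <;> linarith

lemma mem_spectrum_of_tendsto {ζ : ℝ} (hζ : Liouville ζ) {a b : ℕ → ℝ} (ha : ∀ i, 0 ≤ a i)
    (hab : ∀ i, a i < b i) {c : EReal} (hac : Tendsto (fun i => (a i : EReal)) atTop (𝓝 c))
    (hbc : Tendsto (fun i => (b i : EReal)) atTop (𝓝 c)) : c ∈ Spectrum ζ := by
  obtain ⟨α, h1, h2, h3⟩ := exists_alpha hζ ha hab
  refine ⟨α, h1, le_antisymm ?_ ?_⟩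
  · apply sSup_le
    rintro e ⟨w, rfl, hw⟩
    by_contra hcon
    rw [not_le] at hcon
    apply h3 w _ hw
    filter_upwards [hbc.eventually_lt_const hcon] with i hi
    exact (EReal.coe_lt_coe_iff.1 hi).le
  · apply le_of_forall_lt
    intro d hd
    obtain ⟨w, hw1, hw2⟩ := EReal.lt_iff_exists_real_btwn.1 hd
    refine lt_of_lt_of_le hw1 ?_
    apply le_sSup
    refine ⟨w, rfl, h2 w ?_⟩
    filter_upwards [hac.eventually_const_lt hw2] with i hi
    exact (EReal.coe_lt_coe_iff.1 hi).le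

/-- For every Liouville number `ζ` the spectrum of `α ↦ ŵ₁(ζ, α)` is the whole of `[0, ∞]`;
in particular every `c ∈ [0, 1]` is a value, and the spectrum is not `[0, 1]`. -/
theorem result : (∀ ζ : ℝ, Liouville ζ → Spectrum ζ = Set.Ici 0) ∧
    (∀ ζ : ℝ, Liouville ζ → ∀ c : ℝ, 0 ≤ c → c ≤ 1 → (c : EReal) ∈ Spectrum ζ) ∧
    (∀ ζ : ℝ, Liouville ζ → Spectrum ζ ≠ (fun c : ℝ => (c : EReal)) '' Set.Icc 0 1) := by
  have key : ∀ ζ : ℝ, Liouville ζ → Spectrum ζ = Set.Ici 0 := by
    intro ζ hζ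
    apply Set.Subset.antisymm
    · rintro e ⟨α, -, rfl⟩
      exact exponent_nonneg ζ α
    · intro c hc
      induction c with
      | bot => exact absurd hc (by simp)
      | top =>
        have h1 : Tendsto (fun i : ℕ => ((i : ℝ) : EReal)) atTop (𝓝 ⊤) := by
          rw [EReal.tendsto_coe_nhds_top_iff]
          exact tendsto_natCast_atTop_atTop
        refine mem_spectrum_of_tendsto hζ (a := fun i => (i : ℝ)) (b := fun i => (i : ℝ) + 1)
          (fun i => Nat.cast_nonneg i) (fun i => lt_add_one _) h1 ?_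
        rw [EReal.tendsto_coe_nhds_top_iff]
        exact tendsto_atTop_add_const_right _ _ tendsto_natCast_atTop_atTop
      | coe c =>
        have hc0 : 0 ≤ c := by
          have : (0 : EReal) ≤ c := hc
          exact_mod_cast this
        have h0 : Tendsto (fun i : ℕ => 1 / ((i : ℝ) + 1)) atTop (𝓝 0) :=
          tendsto_one_div_add_atTop_nhds_zero_nat
        refine mem_spectrum_of_tendsto hζ (a := fun i => c - c * (1 / ((i : ℝ) + 1)))
          (b := fun i => c + 1 / ((i : ℝ) + 1)) (fun i => ?_) (fun i => ?_) ?_ ?_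
        · have h1 : 1 / ((i : ℝ) + 1) ≤ 1 := by
            rw [div_le_one (by positivity)]
            linarith [Nat.cast_nonneg (α := ℝ) i]
          nlinarith
        · have h1 : 0 < 1 / ((i : ℝ) + 1) := by positivity
          nlinarith
        · apply (continuous_coe_real_ereal.tendsto c).comp
          simpa using tendsto_const_nhds.sub (h0.const_mul c)
        · apply (continuous_coe_real_ereal.tendsto c).comp
          simpa using tendsto_const_nhds.add h0
  refine ⟨key, fun ζ hζ c hc0 _ => ?_, fun ζ hζ h => ?_⟩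
  · rw [key ζ hζ, Set.mem_Ici]
    exact_mod_cast hc0
  · rw [key ζ hζ] at h
    have h1 : (⊤ : EReal) ∈ Set.Ici (0 : EReal) := by simp
    rw [h] at h1
    obtain ⟨c, -, hc⟩ := h1
    exact EReal.coe_ne_top c hc

end Pool.Agent.Results.MP_12d26a_nt.WholeSpectrum
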